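import Pool.Agent.Helper52.SmoothPrimes.Analytic

/-!
Smooth primes at a given scale: the theorem of `Pool/Agent/Helper52/SmoothPrimes/General.lean` with
the scale.
-/

open Finset Filter Pool.Agent.Helper52.SmoothPrimes

namespace Pool.Agent.Helper6.RW4

theorem smooth_quant (u : ℤ) (hu : u = 1 ∨ u = -1) (P : Set ℕ) [DecidablePred (· ∈ P)]
    (hP : ∀ r ∈ P, r.Prime) (c : ℝ) (hc : 0 < c) (B : ℕ) (C : ℝ) : ∃ J0 : ℕ, ∀ y : ℕ, 2 ^ J0 ≤ y →
      c * y / Real.log y ≤ (((Finset.range (y + 1)).filter (· ∈ P)).card : ℝ) →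
      ∃ M : ℕ, 2 ≤ M ∧ ∃ T : Finset ℕ,
      (∀ r ∈ T, r ∈ P ∧ B < r ∧ r ≤ y ∧ (r : ℤ) + u ∣ (M : ℤ)) ∧
      C * (1 + Real.log M) ≤ T.card ∧
      c * (2 ^ Nat.log 2 y / (Nat.log 2 y : ℝ)) / 2 ≤ T.card := by
  classical
  -- constants
  set C' : ℝ := max C 1 with hC'
  have hC1 : 1 ≤ C' := le_max_right _ _
  have hCC : C ≤ C' := le_max_left _ _
  obtain ⟨K0, hK0⟩ := exists_nat_ge (12 * C' / c)
  set K : ℕ := K0 + 1 with hK
  have hK1 : 1 ≤ K := by omega
  have hKc : 12 * C' ≤ c * K := by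
    rw [div_le_iff₀ hc] at hK0
    rw [hK]; push_cast
    nlinarith
  set A : ℝ := max (16 / c) 1 with hA
  have hA1 : 1 ≤ A := le_max_right _ _
  have hAc : 16 / c ≤ A := le_max_left _ _
  have hA0 : 0 < A := by linarith
  have e3 : ∀ᶠ j : ℕ in atTop, 32 * C' / c * (j : ℝ) ≤ 2 ^ (j / 2) := by
    have h := tendsto_pow_const_div_const_pow_of_one_lt 1 (r := (2 : ℝ)) (by norm_num)
    have hhalf : Tendsto (fun j : ℕ => j / 2) atTop atTop :=
      Filter.tendsto_atTop_atTop.mpr fun b => ⟨2 * b, fun a ha => by omega⟩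
    have h2 := (h.comp hhalf).eventually (gt_mem_nhds
      (show (0 : ℝ) < 1 / (32 * C' / c * 3) by positivity))
    filter_upwards [h2, eventually_ge_atTop 2] with j hj hj2
    simp only [Function.comp, pow_one] at hj
    have h3 : (j : ℝ) ≤ 3 * ((j / 2 : ℕ) : ℝ) := by
      have : j ≤ 3 * (j / 2) := by omega
      exact_mod_cast this
    rw [div_lt_div_iff₀ (by positivity) (by positivity)] at hj
    calc 32 * C' / c * (j : ℝ) ≤ 32 * C' / c * (3 * ((j / 2 : ℕ) : ℝ)) := by gcongr
      _ = ((j / 2 : ℕ) : ℝ) * (32 * C' / c * 3) := by ring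
      _ ≤ 1 * 2 ^ (j / 2) := hj.le
      _ = 2 ^ (j / 2) := one_mul _
  obtain ⟨J0, hJ0⟩ := eventually_atTop.mp ((rough_small u hu K hK1 A hA1 (max B 2)).and
    (e3.and (eventually_ge_atTop 4)))
  refine ⟨J0, fun y hy2 hy => ?_⟩
  have hy1 : 1 ≤ y := le_trans Nat.one_le_two_pow hy2
  set j := Nat.log 2 y with hj
  have hjJ : J0 ≤ j := (Nat.le_log_iff_pow_le (by norm_num) (by omega)).mpr hy2
  obtain ⟨⟨z, hBz, hzj, hrough⟩, h3, hj4⟩ := hJ0 j hjJ
  have hj4' : (4 : ℝ) ≤ j := by exact_mod_cast hj4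
  have hjpos : (0 : ℝ) < j := by linarith
  have hyl : 2 ^ j ≤ y := Nat.pow_log_le_self 2 (by omega)
  have hyu : y < 2 ^ (j + 1) := Nat.lt_pow_succ_log_self (by norm_num) y
  set w : ℕ := 2 ^ j / (K * j ^ 2) with hw
  set S := (Finset.range (y + 1)).filter (· ∈ P) with hS
  set T := (S \ Finset.range (z + 1)) \ rough u j w z with hT
  -- the unit of measure
  set Z : ℝ := 2 ^ j / j with hZ
  have hZ0 : 0 < Z := by positivity
  have hScard : c * Z ≤ (S.card : ℝ) := by
    refine le_trans ?_ hy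
    have hlogy : Real.log y ≤ j := by
      have h5 : Real.log y ≤ Real.log ((2 : ℝ) ^ (j + 1)) := by
        apply Real.log_le_log (by exact_mod_cast hy1)
        exact_mod_cast hyu.le
      have h6 : Real.log ((2 : ℝ) ^ (j + 1)) = (j + 1) * Real.log 2 := by
        rw [Real.log_pow]; push_cast; ring
      have h7 := Real.log_two_lt_d9
      rw [h6] at h5
      nlinarith
    have hy16 : (16 : ℝ) ≤ y := by
      have : 2 ^ 4 ≤ 2 ^ j := Nat.pow_le_pow_right (by norm_num) hj4
      exact_mod_cast (le_trans (by norm_num) (this.trans hyl))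
    have hlogy0 : 0 < Real.log y := Real.log_pos (by linarith)
    rw [hZ, ← mul_div_assoc]
    apply div_le_div₀ (by positivity) _ hlogy0 hlogy
    apply mul_le_mul_of_nonneg_left _ hc.le
    exact_mod_cast hyl
  have hpow : (2 : ℝ) ^ (j / 2) * 2 ^ (j / 2) ≤ 2 ^ j := by
    rw [← pow_add]
    exact pow_le_pow_right₀ (by norm_num) (by omega)
  have hp1 : (1 : ℝ) ≤ 2 ^ (j / 2) := one_le_pow₀ (by norm_num)
  have hkey : 16 * (2 * C' * 2 ^ (j / 2)) ≤ c * Z := by
    rw [hZ, ← mul_div_assoc, le_div_iff₀ hjpos]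
    have h5 : 32 * C' * j ≤ c * 2 ^ (j / 2) := by
      have : 32 * C' / c * (j : ℝ) * c = 32 * C' * j := by field_simp
      rw [← this, mul_comm c]
      exact mul_le_mul_of_nonneg_right h3 hc.le
    calc 16 * (2 * C' * 2 ^ (j / 2)) * j = (32 * C' * j) * 2 ^ (j / 2) := by ring
      _ ≤ (c * 2 ^ (j / 2)) * 2 ^ (j / 2) := mul_le_mul_of_nonneg_right h5 (by positivity)
      _ = c * (2 ^ (j / 2) * 2 ^ (j / 2)) := by ring
      _ ≤ c * 2 ^ j := mul_le_mul_of_nonneg_left hpow hc.le
  have hzc : ((z : ℝ) + 1) ≤ c * Z / 16 := by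
    have h5 : (z : ℝ) ≤ 2 ^ (j / 2) := by exact_mod_cast hzj
    nlinarith
  have hCc : C' ≤ c * Z / 16 := by nlinarith
  have hroughc : ((rough u j w z).card : ℝ) ≤ c * Z / 16 := by
    refine hrough.trans ?_
    rw [div_le_iff₀ (by positivity)]
    have h5 : 16 ≤ A * c := by
      rw [div_le_iff₀ hc] at hAc
      exact hAc
    have h6 : Z * j = 2 ^ j := by rw [hZ]; field_simp
    calc (2 : ℝ) ^ j = Z * j := h6.symm
      _ = 16 / 16 * (Z * j) := by ring
      _ ≤ (A * c) / 16 * (Z * j) := by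
          apply mul_le_mul_of_nonneg_right _ (by positivity)
          linarith
      _ = c * Z / 16 * (A * j) := by ring
  have hTcard : c * Z / 2 ≤ (T.card : ℝ) := by
    have h5 : S.card ≤ T.card + (rough u j w z).card + (z + 1) := by
      have h6 := Finset.le_card_sdiff (rough u j w z) (S \ Finset.range (z + 1))
      have h7 := Finset.le_card_sdiff (Finset.range (z + 1)) S
      rw [Finset.card_range] at h7
      rw [hT]
      omega
    have h6 : (S.card : ℝ) ≤ (T.card : ℝ) + ((rough u j w z).card : ℝ) + ((z : ℝ) + 1) := by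
      exact_mod_cast h5
    have : 0 < c * Z := by positivity
    linarith
  -- the modulus
  set Y : ℕ := 2 ^ (j + 1) + 1 with hY
  set M : ℕ := ∏ q ∈ (Finset.range (w + 1)).filter Nat.Prime, q ^ Nat.log q Y with hM
  have hM0 : M ≠ 0 := by
    rw [hM, Finset.prod_ne_zero_iff]
    intro q hq
    exact pow_ne_zero _ (Finset.mem_filter.mp hq).2.ne_zero
  have hTmem : ∀ r ∈ T, r ∈ P ∧ max B 2 < r ∧ r ≤ y ∧ (r : ℤ) + u ∣ (M : ℤ) := by
    intro r hr
    rw [hT, Finset.mem_sdiff, Finset.mem_sdiff, hS, Finset.mem_filter, Finset.mem_range,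
      Finset.mem_range] at hr
    obtain ⟨⟨⟨hry, hrP⟩, hrz⟩, hrr⟩ := hr
    have hrp := hP r hrP
    have hr2 : max B 2 < r := by omega
    refine ⟨hrP, hr2, by omega, ?_⟩
    have hr3 : 2 < r := lt_of_le_of_lt (le_max_right _ _) hr2
    obtain ⟨n, hn⟩ : ∃ n : ℕ, (n : ℤ) = (r : ℤ) + u := by
      refine ⟨((r : ℤ) + u).toNat, ?_⟩
      rw [Int.toNat_of_nonneg]
      rcases hu with h | h <;> omega
    have hne : n ≠ 0 := by rcases hu with h | h <;> omega
    have hnY : n ≤ Y := by rcases hu with h | h <;> omega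
    rw [← hn]
    rw [Int.natCast_dvd_natCast]
    have hsm : ∀ q : ℕ, q.Prime → q ∣ n → q ≤ w := by
      intro q hq hqr
      by_contra hcon
      push Not at hcon
      apply hrr
      unfold rough
      rw [Finset.mem_filter, Finset.mem_range]
      refine ⟨by omega, hrp, by omega, q, hq, hcon, ?_⟩
      rw [← hn]
      exact_mod_cast hqr
    rw [← Nat.prod_factorization_pow_eq_self hne, hM]
    unfold Finsupp.prod
    have hsub : n.factorization.support ⊆ (Finset.range (w + 1)).filter Nat.Prime := by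
      intro q hq
      rw [Nat.support_factorization, Nat.mem_primeFactors] at hq
      rw [Finset.mem_filter, Finset.mem_range]
      exact ⟨Nat.lt_succ_of_le (hsm q hq.1 hq.2.1), hq.1⟩
    refine dvd_trans ?_ (Finset.prod_dvd_prod_of_subset _ _ _ hsub)
    apply Finset.prod_dvd_prod_of_dvd
    intro q hq
    rw [Nat.support_factorization, Nat.mem_primeFactors] at hq
    apply pow_dvd_pow
    have h1 : q ^ n.factorization q ≤ n := Nat.ordProj_le q hne
    exact (Nat.le_log_iff_pow_le hq.1.one_lt (by omega)).mpr (h1.trans hnY)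
  have hlogM : Real.log M ≤ w * (j + 2) := by
    rw [hM]
    push_cast
    rw [Real.log_prod (fun q hq => by
      have := (Finset.mem_filter.mp hq).2.ne_zero
      positivity)]
    have h1 : ∀ q ∈ (Finset.range (w + 1)).filter Nat.Prime,
        Real.log ((q : ℝ) ^ Nat.log q Y) ≤ (j + 2 : ℝ) := by
      intro q hq
      have hq' := (Finset.mem_filter.mp hq).2
      have h2 : q ^ Nat.log q Y ≤ Y := Nat.pow_log_le_self q (by omega)
      have h3 : (q : ℝ) ^ Nat.log q Y ≤ 2 ^ (j + 2) := by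
        have h4 : Y ≤ 2 ^ (j + 2) := by
          rw [hY, pow_succ 2 (j + 1)]
          have := Nat.one_le_two_pow (n := j + 1)
          omega
        exact_mod_cast h2.trans h4
      have h5 : Real.log ((q : ℝ) ^ Nat.log q Y) ≤ Real.log (2 ^ (j + 2)) := by
        apply Real.log_le_log _ h3
        have : 0 < q := hq'.pos
        positivity
      have h5' : Real.log ((2 : ℝ) ^ (j + 2)) = (j + 2) * Real.log 2 := by
        rw [Real.log_pow]; push_cast; ring
      rw [h5'] at h5
      have h6 := Real.log_two_lt_d9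
      nlinarith
    refine (Finset.sum_le_sum h1).trans ?_
    rw [Finset.sum_const, nsmul_eq_mul]
    apply mul_le_mul_of_nonneg_right _ (by positivity)
    have h7 : ((Finset.range (w + 1)).filter Nat.Prime).card ≤ w := by
      have h8 : (Finset.range (w + 1)).filter Nat.Prime ⊆ Finset.Ioc 0 w := by
        intro q hq
        rw [Finset.mem_filter, Finset.mem_range] at hq
        rw [Finset.mem_Ioc]
        exact ⟨hq.2.pos, by omega⟩
      have := Finset.card_le_card h8
      rw [Nat.card_Ioc] at this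
      omega
    exact_mod_cast h7
  have hlogM0 : 0 ≤ Real.log M := Real.log_nonneg (by exact_mod_cast Nat.pos_of_ne_zero hM0)
  have hwle : (w : ℝ) ≤ 2 ^ j / (K * (j : ℝ) ^ 2) := by
    rw [hw]
    refine Nat.cast_div_le.trans ?_
    push_cast
    exact le_rfl
  have hK0' : (0 : ℝ) < K := by exact_mod_cast hK1
  have hfin : C * (1 + Real.log M) ≤ T.card := by
    refine le_trans ?_ hTcard
    have h5 : C' * (w * (j + 2)) ≤ c * Z / 4 := by
      calc C' * (w * (j + 2)) ≤ C' * (2 ^ j / (K * (j : ℝ) ^ 2) * (3 * j)) := by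
            apply mul_le_mul_of_nonneg_left _ (by linarith)
            apply mul_le_mul hwle (by linarith) (by positivity) (by positivity)
        _ = (12 * C') * (Z / (4 * K)) := by
            rw [hZ]
            field_simp
            ring
        _ ≤ (c * K) * (Z / (4 * K)) := mul_le_mul_of_nonneg_right hKc (by positivity)
        _ = c * Z / 4 := by field_simp
    calc C * (1 + Real.log M) ≤ C' * (1 + Real.log M) :=
          mul_le_mul_of_nonneg_right hCC (by linarith)
      _ = C' + C' * Real.log M := by ring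
      _ ≤ C' + C' * (w * (j + 2)) := by
          have := mul_le_mul_of_nonneg_left hlogM (by linarith : 0 ≤ C')
          linarith
      _ ≤ c * Z / 2 := by
          have : 0 < c * Z := by positivity
          linarith
  refine ⟨M, ?_, T, fun r hr => ⟨(hTmem r hr).1, ?_, (hTmem r hr).2.2⟩, hfin, hTcard⟩
  · have hTpos : 0 < T.card := by
      have : (0 : ℝ) < (T.card : ℝ) := lt_of_lt_of_le (by positivity) hTcard
      exact_mod_cast this
    obtain ⟨r, hr⟩ := Finset.card_pos.mp hTpos
    have h1 := hTmem r hr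
    have h2 := Int.le_of_dvd (by exact_mod_cast Nat.pos_of_ne_zero hM0) h1.2.2.2
    have h3 : 2 < r := lt_of_le_of_lt (le_max_right _ _) h1.2.1
    rcases hu with h | h <;> omega
  · exact lt_of_le_of_lt (le_max_left _ _) (hTmem r hr).2.1


end Pool.Agent.Helper6.RW4
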