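import Pool.Agent.Helper6.RW4.Scale
import Pool.Agent.Helper6.RW4.Smooth
import Pool.Agent.Helper51.LVC

/-!
Primes for the sieve, at all scales.
-/

open Finset Filter NumberField Pool.Agent.Helper83.LVB

namespace Pool.Agent.Helper6.RW4

/-- There are primes for the sieve at all scales. -/
def Scales (P : Set ℕ) : Prop :=
  ∀ C : ℝ, ∃ δ : ℝ, 0 < δ ∧ ∃ Y₀ : ℕ, ∀ Y : ℕ, Y₀ ≤ Y → ∃ (M : ℕ) (T : Finset ℕ), 0 < M ∧
    (∀ r ∈ T, r ∈ P ∧ r ≤ Y ∧ (r - 1) ∣ M) ∧ C * (1 + Real.log M) ≤ T.card ∧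
    (Y : ℝ) ^ δ ≤ T.card

theorem sqrt_two_bound (c : ℝ) (hc : 0 < c) :
    ∀ᶠ j : ℕ in atTop, (√2 : ℝ) ^ j ≤ c * (2 ^ j / (j : ℝ)) / 2 := by
  have h1 : (1 : ℝ) < √2 := by
    rw [Real.lt_sqrt (by norm_num)]
    norm_num
  have h := tendsto_pow_const_div_const_pow_of_one_lt 1 h1
  have h2 := h.eventually (gt_mem_nhds (show (0 : ℝ) < c / 2 by positivity))
  filter_upwards [h2, eventually_gt_atTop 0] with j hj hj0
  have hj0' : (0 : ℝ) < j := by exact_mod_cast hj0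
  have h3 : (0 : ℝ) < √2 ^ j := by positivity
  rw [pow_one, div_lt_iff₀ h3] at hj
  have h4 : (2 : ℝ) ^ j = √2 ^ j * √2 ^ j := by
    rw [← mul_pow, Real.mul_self_sqrt (by norm_num)]
  rw [h4, mul_div_assoc', div_div, le_div_iff₀ (by positivity)]
  nlinarith

theorem scales_of (K : Type) [Field K] [NumberField K] (N₀ : ℕ) (hN : 0 < N₀) (r₀ : ℕ) :
    ∃ P : Set ℕ, (∀ r ∈ P, r.Prime ∧ Nonempty (Localization.Away (N₀ : 𝓞 K) →+* ZMod r)) ∧
      (∀ r ∈ P, r₀ < r) ∧ Scales P := by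
  classical
  obtain ⟨c, ε, hc, hε, Y₀, hscale⟩ := exists_scale K
  let P : Set ℕ := {r | r.Prime ∧ Nonempty (𝓞 K →+* ZMod r)}
  refine ⟨{r | r ∈ P ∧ max N₀ r₀ < r}, ?_, fun r hr => (le_max_right N₀ r₀).trans_lt hr.2,
    fun C => ?_⟩
  · rintro r ⟨⟨hr, ⟨f⟩⟩, hrN⟩
    refine ⟨hr, ?_⟩
    obtain ⟨ψ, -⟩ := Pool.Agent.Helper51.LVC.lift_hom (K := K) N₀ r hr (fun hd =>
      absurd (Nat.le_of_dvd hN hd) (not_le.mpr ((le_max_left N₀ r₀).trans_lt hrN))) f
    exact ⟨ψ⟩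
  · obtain ⟨J0, hJ0⟩ := smooth_quant (-1) (Or.inr rfl) P (fun r hr => hr.1) c hc (max N₀ r₀) C
    obtain ⟨J1, hJ1⟩ := eventually_atTop.mp (sqrt_two_bound c hc)
    have hlarge : ∀ᶠ Y : ℕ in atTop, (2 : ℝ) ^ (max J0 J1) ≤ (Y : ℝ) ^ ε ∧
        (2 : ℝ) ≤ (Y : ℝ) ^ (ε / 2) := by
      have h1 := ((tendsto_rpow_atTop hε).comp tendsto_natCast_atTop_atTop).eventually_ge_atTop
        ((2 : ℝ) ^ (max J0 J1))
      have h2 := ((tendsto_rpow_atTop (half_pos hε)).comp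
        tendsto_natCast_atTop_atTop).eventually_ge_atTop (2 : ℝ)
      exact h1.and h2
    obtain ⟨Y₁, hY₁⟩ := eventually_atTop.mp hlarge
    refine ⟨ε / 4, by positivity, max Y₀ Y₁, fun Y hY => ?_⟩
    obtain ⟨hl1, hl2⟩ := hY₁ Y ((le_max_right _ _).trans hY)
    obtain ⟨y, hyY, hyε, hyc⟩ := hscale Y ((le_max_left _ _).trans hY)
    have hy2 : 2 ^ max J0 J1 ≤ y := by exact_mod_cast hl1.trans hyε
    have hyc' : c * y / Real.log y ≤ (((Finset.range (y + 1)).filter (· ∈ P)).card : ℝ) := by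
      refine hyc.trans (le_of_eq ?_)
      congr 2
    obtain ⟨M, hM, T, hT, hC, hcard⟩ := hJ0 y
      ((Nat.pow_le_pow_right (by norm_num) (le_max_left _ _)).trans hy2) hyc'
    refine ⟨M, T, by omega, fun r hr => ?_, hC, ?_⟩
    · obtain ⟨h1, h2, h3, h4⟩ := hT r hr
      refine ⟨⟨h1, h2⟩, h3.trans hyY, ?_⟩
      have h5 : (r : ℤ) + -1 = ((r - 1 : ℕ) : ℤ) := by
        have := h1.1.one_le
        omega
      rw [h5] at h4
      exact_mod_cast h4
    · have hy0 : y ≠ 0 := by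
        rintro rfl
        have := Nat.one_le_two_pow (n := max J0 J1)
        omega
      have hj1 : J1 ≤ Nat.log 2 y := (Nat.le_log_iff_pow_le (by norm_num) hy0).mpr
        ((Nat.pow_le_pow_right (by norm_num) (le_max_right _ _)).trans hy2)
      refine le_trans ?_ ((hJ1 _ hj1).trans hcard)
      have hyu : y < 2 ^ (Nat.log 2 y + 1) := Nat.lt_pow_succ_log_self (by norm_num) y
      have h1 : (Y : ℝ) ^ ε < 2 * 2 ^ Nat.log 2 y := by
        have h2 : (y : ℝ) < 2 ^ (Nat.log 2 y + 1) := by exact_mod_cast hyu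
        rw [pow_succ] at h2
        linarith
      have h3 : (Y : ℝ) ^ ε = (Y : ℝ) ^ (ε / 2) * (Y : ℝ) ^ (ε / 2) := by
        rcases Nat.eq_zero_or_pos Y with h0 | h0
        · exfalso
          rw [h0, Nat.cast_zero, Real.zero_rpow (by positivity)] at hl2
          linarith
        · rw [← Real.rpow_add (by exact_mod_cast h0)]
          congr 1
          ring
      have h4 : (Y : ℝ) ^ (ε / 2) ≤ 2 ^ Nat.log 2 y := by
        have h5 : 0 ≤ (Y : ℝ) ^ (ε / 2) := by positivity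
        nlinarith
      have h6 : (Y : ℝ) ^ (ε / 4) = √((Y : ℝ) ^ (ε / 2)) := by
        rw [Real.sqrt_eq_rpow, ← Real.rpow_mul (Nat.cast_nonneg _)]
        congr 1
        ring
      rw [h6]
      have h7 : (√2 : ℝ) ^ Nat.log 2 y = √(2 ^ Nat.log 2 y) := by
        rw [Real.sqrt_eq_rpow, Real.sqrt_eq_rpow, ← Real.rpow_natCast, ← Real.rpow_natCast,
          ← Real.rpow_mul (by norm_num), ← Real.rpow_mul (by norm_num)]
        congr 1
        ring
      rw [h7]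
      exact Real.sqrt_le_sqrt h4

/-- **The choice of the primes.** -/
theorem choose_quant (m n g K : ℕ) (hm : 2 ≤ m) (P : Set ℕ) (hP : ∀ r ∈ P, r.Prime)
    (hprimes : Scales P) :
    ∃ δ : ℝ, 0 < δ ∧ ∃ H₀ : ℕ, ∀ H : ℕ, H₀ ≤ H → ∃ (M : ℕ) (T : Finset ℕ), 0 < M ∧
      (∀ r ∈ T, r ∈ P ∧ (r - 1) ∣ M) ∧ ∏ r ∈ T, r ≤ 2 * H + 1 ∧
      (2 : ℝ) ^ K * ((M : ℝ) ^ (n * g) * (1 - 1 / (2 * m)) ^ T.card) ≤
        Real.exp (-(Real.log H) ^ δ) := by
  have hm' : (2 : ℝ) ≤ m := by exact_mod_cast hm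
  set θ : ℝ := 1 - 1 / (2 * m) with hθ
  have hθ0 : 0 < θ := by
    rw [hθ, sub_pos, div_lt_one (by positivity)]
    linarith
  have hθ1 : θ < 1 := by
    rw [hθ]
    have : (0 : ℝ) < 1 / (2 * m) := by positivity
    linarith
  set κ : ℝ := -Real.log θ with hκ
  have hκ0 : 0 < κ := by
    rw [hκ, neg_pos]
    exact Real.log_neg hθ0 hθ1
  obtain ⟨δ, hδ, Y₀, hY₀⟩ := hprimes (2 * ((n * g : ℕ) : ℝ) / κ)
  have hlog4 : 0 < Real.log 4 := Real.log_pos (by norm_num)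
  set κ' : ℝ := κ / 2 * (1 / (2 * Real.log 4)) ^ δ with hκ'
  have hκ'0 : 0 < κ' := by positivity
  have hlarge : ∀ᶠ H : ℕ in atTop, max 1 ((K * Real.log 2 + 1) / κ') ≤
      (Real.log H) ^ (δ / 2) :=
    ((tendsto_rpow_atTop (half_pos hδ)).comp
      (Real.tendsto_log_atTop.comp tendsto_natCast_atTop_atTop)).eventually_ge_atTop _
  obtain ⟨H₁, hH₁⟩ := eventually_atTop.mp hlarge
  refine ⟨δ / 2, by positivity, max H₁ (4 ^ (Y₀ + 1)), fun H hH => ?_⟩
  have hX := hH₁ H ((le_max_left _ _).trans hH)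
  have hH4 : 4 ^ (Y₀ + 1) ≤ H := (le_max_right _ _).trans hH
  have hH0 : 0 < H := lt_of_lt_of_le (by positivity) hH4
  set Y := Nat.log 4 (2 * H + 1) with hY
  have hYY : Y₀ + 1 ≤ Y := (Nat.le_log_iff_pow_le (by norm_num) (by omega)).mpr (by omega)
  have hYl : 4 ^ Y ≤ 2 * H + 1 := Nat.pow_log_le_self 4 (by omega)
  have hYu : 2 * H + 1 < 4 ^ (Y + 1) := Nat.lt_pow_succ_log_self (by norm_num) _
  obtain ⟨M, T, hM, hT, hC, hcard⟩ := hY₀ Y (by omega)
  refine ⟨M, T, hM, fun r hr => ⟨(hT r hr).1, (hT r hr).2.2⟩, ?_, ?_⟩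
  · have h1 : ∏ r ∈ T, r ∣ primorial Y := by
      rw [primorial]
      refine Finset.prod_dvd_prod_of_subset _ _ _ fun r hr => ?_
      rw [Finset.mem_filter, Finset.mem_range]
      exact ⟨Nat.lt_succ_of_le (hT r hr).2.1, hP r (hT r hr).1⟩
    exact (Nat.le_of_dvd (primorial_pos Y) h1).trans
      ((primorial_le_four_pow Y).trans hYl)
  · have hM1 : (1 : ℝ) ≤ M := by exact_mod_cast hM
    have hlog : 0 ≤ Real.log M := Real.log_nonneg hM1
    set L := Real.log H with hL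
    have hL0 : 0 ≤ L := Real.log_natCast_nonneg _
    have hLY : 1 / (2 * Real.log 4) * L ≤ Y := by
      have h1 : (H : ℝ) ≤ 4 ^ (Y + 1) := by
        have : H ≤ 4 ^ (Y + 1) := by omega
        exact_mod_cast this
      have h2 : L ≤ (Y + 1) * Real.log 4 := by
        have h3 := Real.log_le_log (by exact_mod_cast hH0) h1
        rw [Real.log_pow] at h3
        push_cast at h3
        exact h3
      have h4 : (1 : ℝ) ≤ Y := by exact_mod_cast (by omega : 1 ≤ Y)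
      rw [one_div, inv_mul_le_iff₀ (by positivity)]
      nlinarith
    have e1 : (M : ℝ) ^ (n * g) = Real.exp ((n * g : ℕ) * Real.log M) := by
      rw [Real.exp_nat_mul, Real.exp_log (by linarith)]
    have e2 : θ ^ T.card = Real.exp (-(T.card * κ)) := by
      rw [hκ, mul_neg, neg_neg, Real.exp_nat_mul, Real.exp_log hθ0]
    have e3 : (2 : ℝ) ^ K = Real.exp (K * Real.log 2) := by
      rw [Real.exp_nat_mul, Real.exp_log (by norm_num)]
    rw [e1, e2, e3, ← Real.exp_add, ← Real.exp_add]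
    apply Real.exp_le_exp.mpr
    have e4 : ((n * g : ℕ) : ℝ) * Real.log M ≤ T.card * κ / 2 := by
      have h1 := mul_le_mul_of_nonneg_right hC (half_pos hκ0).le
      have h2 : 2 * ((n * g : ℕ) : ℝ) / κ * (1 + Real.log M) * (κ / 2) =
          ((n * g : ℕ) : ℝ) * (1 + Real.log M) := by field_simp
      rw [h2] at h1
      have h3 : (0 : ℝ) ≤ ((n * g : ℕ) : ℝ) := Nat.cast_nonneg _
      linarith
    have e5 : κ' * (L ^ (δ / 2) * L ^ (δ / 2)) ≤ T.card * κ / 2 := by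
      have h1 : L ^ (δ / 2) * L ^ (δ / 2) = L ^ δ := by
        rw [← Real.rpow_add_of_nonneg hL0 (by positivity) (by positivity)]
        congr 1
        ring
      rw [h1, hκ', mul_assoc, ← Real.mul_rpow (by positivity) hL0]
      have h2 : (1 / (2 * Real.log 4) * L) ^ δ ≤ (Y : ℝ) ^ δ :=
        Real.rpow_le_rpow (by positivity) hLY hδ.le
      have h3 := mul_le_mul_of_nonneg_left (h2.trans hcard) (half_pos hκ0).le
      linarith
    set X := L ^ (δ / 2) with hXdef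
    have hX1 : 1 ≤ X := (le_max_left _ _).trans hX
    have hX2 : K * Real.log 2 + 1 ≤ κ' * X := by
      have := (le_max_right (1 : ℝ) ((K * Real.log 2 + 1) / κ')).trans hX
      rw [div_le_iff₀ hκ'0] at this
      linarith
    have hlog2 : 0 < Real.log 2 := Real.log_pos (by norm_num)
    have e6 : K * Real.log 2 + X ≤ κ' * (X * X) := by
      have h1 : (K * Real.log 2 + 1) * X ≤ κ' * X * X :=
        mul_le_mul_of_nonneg_right hX2 (by linarith)
      have h2 : 0 ≤ K * Real.log 2 * (X - 1) :=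
        mul_nonneg (by positivity) (by linarith)
      nlinarith
    linarith

end Pool.Agent.Helper6.RW4
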