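import Pool.Agent.Helper6.RW3.Sieve
import Pool.Agent.Helper6.RW4.Primes

/-!
The sieve with a rate.
-/

namespace Pool.Agent.Helper6.RW4

open Finset MvPolynomial Pool.Agent.Helper6.RH Pool.Agent.Helper6.RW3

/-- the tuples of forms with a point over a ring `S` -/
theorem sieve_quant {R : Type} [CommRing R] (S : Type) [CommRing S] (hS : Group.FG Sˣ) (P : Set ℕ)
    (hP : ∀ r ∈ P, r.Prime ∧ Nonempty (S →+* ZMod r))
    (hprimes : Scales P)
    (φ : R →+* S) {N a l m : ℕ} (L : Set (MvPolynomial (Vars N a) R))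
    (G : Fin l → MvPolynomial (Vars N a) R) (E : Finset (Fin m)) (d : Fin m → ℕ)
    {θ : ℝ} (hθ0 : 0 < θ)
    (hcount : ∀ r ∈ P, ∀ [Fact r.Prime] (ψ : S →+* ZMod r) (τ : Fin a → (ZMod r)ˣ)
      (v : Fin l → (ZMod r)ˣ) (u : Fin m → (ZMod r)ˣ) (b : Idx N d → ZMod r),
      ∃ SS : Finset (Idx N d → ZMod r), (∀ c : Idx N d → ZMod r,
        (∃ x : Fin (N + 1) → ZMod r, x ≠ 0 ∧
          (∀ f ∈ L, eval₂ (ψ.comp φ) (Sum.elim x fun i => (τ i : ZMod r)) f = 0) ∧
          (∀ i, eval₂ (ψ.comp φ) (Sum.elim x fun i => (τ i : ZMod r)) (G i) = v i) ∧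
          ∀ i, ev (fun m => b ⟨i, m⟩ + c ⟨i, m⟩) x = if i ∈ E then 0 else (u i : ZMod r)) →
        c ∈ SS) ∧ (SS.card : ℝ) ≤ (1 - θ) * (r : ℝ) ^ Fintype.card (Idx N d)) :
    ∃ δ : ℝ, 0 < δ ∧ ∃ H₀ : ℕ, ∀ H : ℕ, H₀ ≤ H → ∀ Φ : Fin m → MvPolynomial (Vars N a) R,
      (∀ i, IsFormX (Φ i) (d i)) →
      (({F ∈ Box N d H | ∃ (x : Fin (N + 1) → S) (τ : Fin a → Sˣ), Ideal.span (Set.range x) = ⊤ ∧
        (∀ f ∈ L, eval₂ φ (Sum.elim x fun i => (τ i : S)) f = 0) ∧
        (∀ i, IsUnit (eval₂ φ (Sum.elim x fun i => (τ i : S)) (G i))) ∧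
        (∀ i ∈ E, eval₂ φ (Sum.elim x fun i => (τ i : S)) (Φ i + formOver a R (F i)) = 0) ∧
        ∀ i, i ∉ E → IsUnit (eval₂ φ (Sum.elim x fun i => (τ i : S))
          (Φ i + formOver a R (F i)))}.ncard : ℕ) : ℝ) ≤
        Real.exp (-(Real.log H) ^ δ) * (Box N d H).ncard := by
  classical
  obtain ⟨g, f, hf⟩ : ∃ (g : ℕ) (f : (Fin g → ℤ) →+ Additive Sˣ), Function.Surjective f := by
    have : Module.Finite ℤ (Additive Sˣ) :=
      Module.Finite.iff_addGroup_fg.mpr (GroupFG.iff_add_fg.mp hS)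
    obtain ⟨g, f, hf⟩ := Module.Finite.exists_fin' ℤ (Additive Sˣ)
    exact ⟨g, f.toAddMonoidHom, hf⟩
  set Kc := Fintype.card (Idx N d) with hKc
  obtain ⟨m', hm2, hmθ⟩ : ∃ m : ℕ, 2 ≤ m ∧ 1 / (2 * (m : ℝ)) ≤ θ := by
    obtain ⟨m, hm⟩ := exists_nat_ge (1 / θ)
    refine ⟨max m 2, le_max_right _ _, ?_⟩
    have h1 : 1 / θ ≤ ((max m 2 : ℕ) : ℝ) := hm.trans (by exact_mod_cast le_max_left _ _)
    have h2 : (2 : ℝ) ≤ ((max m 2 : ℕ) : ℝ) := by exact_mod_cast le_max_right _ _
    rw [div_le_iff₀ (by linarith)]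
    rw [div_le_iff₀ hθ0] at h1
    nlinarith
  obtain ⟨δ, hδ, H₀, hH₀⟩ := choose_quant m' (a + l + m) g Kc hm2 P (fun r hr => (hP r hr).1)
    hprimes
  refine ⟨δ, hδ, H₀, fun H hH Φ hΦ => ?_⟩
  obtain ⟨M, T, hM, hT, hprod, hbound⟩ := hH₀ H hH
  have hTp : ∀ r ∈ T, r.Prime ∧ (r - 1) ∣ M := fun r hr => ⟨(hP r (hT r hr).1).1, (hT r hr).2⟩
  have hex : ∀ r ∈ T, ∃ _ : S →+* ZMod r, True := fun r hr => by
    obtain ⟨ψ⟩ := (hP r (hT r hr).1).2
    exact ⟨ψ, trivial⟩
  choose ψ _ using hex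
  let bb : ∀ r, r ∈ T → (Fin a → (ZMod r)ˣ) → Idx N d → ZMod r := fun r hr τ p =>
    (substitute (fun i => (τ i : ZMod r))
      (MvPolynomial.map ((ψ r hr).comp φ) (Φ p.1))).coeff p.2.1
  let Xt := (Fin a → Sˣ) × (Fin l → Sˣ) × (Fin m → Sˣ)
  let Good : ∀ r ∈ T, Xt → (Idx N d → ZMod r) → Prop := fun r hr w c =>
    ∃ x : Fin (N + 1) → ZMod r, x ≠ 0 ∧
      (∀ f ∈ L, eval₂ ((ψ r hr).comp φ) (Sum.elim x fun i =>
        ((Units.map (ψ r hr).toMonoidHom (w.1 i) : (ZMod r)ˣ) : ZMod r)) f = 0) ∧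
      (∀ i, eval₂ ((ψ r hr).comp φ) (Sum.elim x fun i =>
        ((Units.map (ψ r hr).toMonoidHom (w.1 i) : (ZMod r)ˣ) : ZMod r)) (G i) =
          ((Units.map (ψ r hr).toMonoidHom (w.2.1 i) : (ZMod r)ˣ) : ZMod r)) ∧
      ∀ i, ev (fun m => bb r hr (fun i => Units.map (ψ r hr).toMonoidHom (w.1 i)) ⟨i, m⟩ +
        c ⟨i, m⟩) x =
        if i ∈ E then 0 else ((Units.map (ψ r hr).toMonoidHom (w.2.2 i) : (ZMod r)ˣ) : ZMod r)
  have hm' : (2 : ℝ) ≤ m' := by exact_mod_cast hm2
  have hθ1 : (0 : ℝ) ≤ 1 - 1 / (2 * m') := by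
    rw [sub_nonneg, div_le_one (by positivity)]
    linarith
  have hsieve := Pool.Agent.Helper8.DenseLV.sieve_bound (n := a + l + m) f hf M hM T hTp
    (fun w : Xt => Fin.append (Fin.append w.1 w.2.1) w.2.2)
    (fun r hr => Units.map (ψ r hr).toMonoidHom) Good
    (by
      rintro r hr w w' hww c ⟨x, hx, hx1, hx3, hx2⟩
      have h1 : ∀ i, Units.map (ψ r hr).toMonoidHom (w.1 i) =
          Units.map (ψ r hr).toMonoidHom (w'.1 i) := fun i => by
        have := hww (Fin.castAdd m (Fin.castAdd l i))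
        rwa [Fin.append_left, Fin.append_left, Fin.append_left, Fin.append_left] at this
      have h3 : ∀ i, Units.map (ψ r hr).toMonoidHom (w.2.1 i) =
          Units.map (ψ r hr).toMonoidHom (w'.2.1 i) := fun i => by
        have := hww (Fin.castAdd m (Fin.natAdd a i))
        rwa [Fin.append_left, Fin.append_left, Fin.append_right, Fin.append_right] at this
      have h2 : ∀ i, Units.map (ψ r hr).toMonoidHom (w.2.2 i) =
          Units.map (ψ r hr).toMonoidHom (w'.2.2 i) := fun i => by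
        have := hww (Fin.natAdd (a + l) i)
        rwa [Fin.append_right, Fin.append_right] at this
      have h4 : (fun i => Units.map (ψ r hr).toMonoidHom (w.1 i)) =
          fun i => Units.map (ψ r hr).toMonoidHom (w'.1 i) := funext h1
      refine ⟨x, hx, fun f hf => ?_, fun i => ?_, fun i => ?_⟩
      · simp only [← h1]
        exact hx1 f hf
      · simp only [← h1, ← h3]
        exact hx3 i
      · rw [← h4, hx2 i, h2 i]) (1 - 1 / (2 * m')) hθ1
    (by
      intro r hr w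
      have : Fact r.Prime := ⟨(hTp r hr).1⟩
      obtain ⟨SS, h1, h2⟩ := hcount r (hT r hr).1 (ψ r hr)
        (fun i => Units.map (ψ r hr).toMonoidHom (w.1 i))
        (fun i => Units.map (ψ r hr).toMonoidHom (w.2.1 i))
        (fun i => Units.map (ψ r hr).toMonoidHom (w.2.2 i))
        (bb r hr (fun i => Units.map (ψ r hr).toMonoidHom (w.1 i)))
      refine ⟨SS, fun c hc => h1 c hc,
        h2.trans (mul_le_mul_of_nonneg_right (by linarith) (by positivity))⟩) H hprod
  set A := {F ∈ Box N d H | ∃ (x : Fin (N + 1) → S) (τ : Fin a → Sˣ),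
        Ideal.span (Set.range x) = ⊤ ∧
        (∀ f ∈ L, eval₂ φ (Sum.elim x fun i => (τ i : S)) f = 0) ∧
        (∀ i, IsUnit (eval₂ φ (Sum.elim x fun i => (τ i : S)) (G i))) ∧
        (∀ i ∈ E, eval₂ φ (Sum.elim x fun i => (τ i : S)) (Φ i + formOver a R (F i)) = 0) ∧
        ∀ i, i ∉ E → IsUnit (eval₂ φ (Sum.elim x fun i => (τ i : S))
          (Φ i + formOver a R (F i)))} with hA
  set S' := (Pool.Agent.Helper8.DenseLV.box (Idx N d) H).filter fun c =>
    ∃ w : Xt, ∀ r (hr : r ∈ T), Good r hr w fun i => (c i : ZMod r) with hS'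
  have hle : A.ncard ≤ S'.card := by
    rw [← Set.ncard_coe_finset]
    refine Set.ncard_le_ncard_of_injOn (toVec d) ?_ ?_ (Finset.finite_toSet _)
    · rintro F ⟨hF, x, τ, hspan, hL, hG, hxE, hx⟩
      rw [mem_coe, mem_filter]
      refine ⟨?_, ?_⟩
      · have : toVec d F ∈ toVec (n := N) d '' Box N d H := ⟨F, hF, rfl⟩
        rw [toVec_image] at this
        exact this
      · refine ⟨(τ, fun i => (hG i).unit, fun i => if h : i ∈ E then 1 else (hx i h).unit),
          fun r hr => ?_⟩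
        have : Fact r.Prime := ⟨(hTp r hr).1⟩
        have hpush : ∀ (f : MvPolynomial (Vars N a) R),
            eval₂ ((ψ r hr).comp φ) (Sum.elim (fun j => ψ r hr (x j)) fun i =>
              ((Units.map (ψ r hr).toMonoidHom (τ i) : (ZMod r)ˣ) : ZMod r)) f =
            ψ r hr (eval₂ φ (Sum.elim x fun i => (τ i : S)) f) := by
          intro f
          rw [hom_eval₂]
          congr 1
          funext v
          rcases v with j | i
          · rfl
          · rfl
        have hred : ∀ i, ev (fun m : Mon N (d i) =>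
            bb r hr (fun i => Units.map (ψ r hr).toMonoidHom (τ i)) ⟨i, m⟩ +
              (((F i).coeff m.1 : ℤ) : ZMod r))
            (fun j => ψ r hr (x j)) =
              ψ r hr (eval₂ φ (Sum.elim x fun i => (τ i : S)) (Φ i + formOver a R (F i))) := by
          intro i
          rw [← hpush, eval₂_add]
          have h1 := evT_red ((ψ r hr).comp φ) (Φ i) (hΦ i) (fun j => ψ r hr (x j))
            (fun i => ((Units.map (ψ r hr).toMonoidHom (τ i) : (ZMod r)ˣ) : ZMod r))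
          have h2 := ev_red (Int.castRingHom (ZMod r)) (F i) (hF i).1 (fun j => ψ r hr (x j))
          have h3 : eval₂ ((ψ r hr).comp φ) (Sum.elim (fun j => ψ r hr (x j)) fun i =>
              ((Units.map (ψ r hr).toMonoidHom (τ i) : (ZMod r)ˣ) : ZMod r))
              (formOver a R (F i)) =
              eval₂ (Int.castRingHom (ZMod r)) (fun j => ψ r hr (x j)) (F i) := by
            unfold formOver
            rw [eval₂_rename, eval₂_map]
            congr 1
            exact RingHom.ext_int _ _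
          rw [h3, ← h1, ← h2, ← ev_add]
          rfl
        refine ⟨fun j => ψ r hr (x j), ?_, fun f hf => ?_, fun i => ?_, fun i => ?_⟩
        · intro h0
          have h1 : Ideal.span (Set.range x) ≤ RingHom.ker (ψ r hr) := by
            rw [Ideal.span_le]
            rintro _ ⟨j, rfl⟩
            exact congrFun h0 j
          rw [hspan] at h1
          have h2 : ψ r hr 1 = 0 := h1 Submodule.mem_top
          rw [map_one] at h2
          exact one_ne_zero h2
        · exact (hpush f).trans (by rw [hL f hf, map_zero])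
        · exact hpush (G i)
        · by_cases hi : i ∈ E
          · rw [if_pos hi]
            refine (hred i).trans ?_
            rw [hxE i hi, map_zero]
          · rw [if_neg hi]
            refine (hred i).trans ?_
            simp only [dif_neg hi]
            rfl
    · exact (toVec_injOn d H).mono fun F hF => hF.1
  rw [ncard_Box]
  calc (A.ncard : ℝ) ≤ S'.card := by exact_mod_cast hle
    _ ≤ _ := hsieve
    _ = (2 ^ Kc * ((M : ℝ) ^ ((a + l + m) * g) * (1 - 1 / (2 * m')) ^ T.card)) *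
        (2 * H + 1) ^ Kc := by ring
    _ ≤ Real.exp (-(Real.log H) ^ δ) * (2 * H + 1) ^ Kc := by gcongr
    _ = _ := by push_cast; rfl

end Pool.Agent.Helper6.RW4
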