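import Pool.Agent.Helper6.RW3.Key
import Pool.Agent.Helper6.RW4.Sieve

/-!
The sieve for integral points over `B`, with a rate.
-/

open AlgebraicGeometry CategoryTheory MvPolynomial Pool.Agent.Helper6.RW3

namespace Pool.Agent.Helper6.RW4

open Pool.Agent.Helper6.RH (Idx ev toVec_injOn toVec_image)

theorem key_L (B : Scheme.{0}) [IsIntegral B] (V : B.Opens) [Nonempty V]
    {N a l m : ℕ} (I : Set (MvPolynomial (Vars N a) B.functionField))
    (G : Fin l → MvPolynomial (Vars N a) Γ(B, ⊤)) (E : Finset (Fin m)) (d : Fin m → ℕ)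
    (S : Type) [CommRing S] (hS : Group.FG Sˣ) (P : Set ℕ)
    (hP : ∀ r ∈ P, r.Prime ∧ Nonempty (S →+* ZMod r))
    (hprimes : Scales P)
    (φ : Γ(B, V) →+* S) (L : Set (MvPolynomial (Vars N a) Γ(B, V)))
    (GV : Fin l → MvPolynomial (Vars N a) Γ(B, V)) {θ : ℝ} (hθ0 : 0 < θ)
    (hspec : ∀ (Φ : Fin m → MvPolynomial (Vars N a) Γ(B, ⊤))
      (F : Fin m → MvPolynomial (Fin (N + 1)) ℤ), (∀ i, IsFormX (Φ i) (d i)) →
      (∀ i, (F i).IsHomogeneous (d i)) → HasIntegralPoint B I G E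
      (fun i => Φ i + formOver a Γ(B, ⊤) (F i)) →
      SetS φ L GV E (fun i => MvPolynomial.map (res B V) (Φ i)) F)
    (hcount : ∀ r ∈ P, ∀ [Fact r.Prime] (ψ : S →+* ZMod r) (τ : Fin a → (ZMod r)ˣ)
      (v : Fin l → (ZMod r)ˣ) (u : Fin m → (ZMod r)ˣ) (b : Idx N d → ZMod r),
      ∃ SS : Finset (Idx N d → ZMod r), (∀ c : Idx N d → ZMod r,
        (∃ x : Fin (N + 1) → ZMod r, x ≠ 0 ∧
          (∀ f ∈ L,
            eval₂ (ψ.comp φ) (Sum.elim x fun i => (τ i : ZMod r)) f = 0) ∧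
          (∀ i, eval₂ (ψ.comp φ) (Sum.elim x fun i => (τ i : ZMod r)) (GV i) = v i) ∧
          ∀ i, ev (fun m => b ⟨i, m⟩ + c ⟨i, m⟩) x = if i ∈ E then 0 else (u i : ZMod r)) →
        c ∈ SS) ∧ (SS.card : ℝ) ≤ (1 - θ) * (r : ℝ) ^ Fintype.card (Idx N d)) :
    ∃ δ : ℝ, 0 < δ ∧ ∃ H₀ : ℕ, ∀ H : ℕ, H₀ ≤ H →
        ∀ Φ : Fin m → MvPolynomial (Vars N a) Γ(B, ⊤), (∀ i, IsFormX (Φ i) (d i)) →
        (({F ∈ FormBox N d H | HasIntegralPoint B I G E
          (fun i => Φ i + formOver a Γ(B, ⊤) (F i))}.ncard : ℕ) : ℝ) ≤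
          Real.exp (-(Real.log H) ^ δ) * (FormBox N d H).ncard := by
  obtain ⟨δ, hδ, H₀, hH₀⟩ := sieve_quant S hS P hP hprimes φ L GV E d hθ0 hcount
  refine ⟨δ, hδ, H₀, fun H hH Φ hΦ => ?_⟩
  have h1 := hH₀ H hH (fun i => MvPolynomial.map (res B V) (Φ i)) (fun i s hs => hΦ i fun h0 =>
    hs (by rw [coeff_map, h0, map_zero]))
  have hbox : Pool.Agent.Helper6.RH.Box N d H = FormBox N d H := rfl
  have hfin : (FormBox N d H).Finite := by
    rw [← hbox]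
    refine Set.Finite.of_finite_image ?_ (toVec_injOn d H)
    rw [toVec_image]
    exact Finset.finite_toSet _
  have hsub : {F ∈ FormBox N d H | HasIntegralPoint B I G E
      (fun i => Φ i + formOver a Γ(B, ⊤) (F i))} ⊆
      {F ∈ FormBox N d H | SetS φ L GV E (fun i => MvPolynomial.map (res B V) (Φ i)) F} := by
    rintro F ⟨hF, hp⟩
    exact ⟨hF, hspec Φ F hΦ (fun i => (hF i).1) hp⟩
  have h2 : ({F ∈ FormBox N d H | HasIntegralPoint B I G E
      (fun i => Φ i + formOver a Γ(B, ⊤) (F i))}.ncard : ℝ) ≤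
      ({F ∈ FormBox N d H | SetS φ L GV E
        (fun i => MvPolynomial.map (res B V) (Φ i)) F}.ncard : ℝ) := by
    exact_mod_cast Set.ncard_le_ncard hsub (hfin.subset fun F hF => hF.1)
  exact h2.trans h1

end Pool.Agent.Helper6.RW4
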