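import Pool.Agent.Helper6.RW3.Final2
import Pool.Agent.Helper6.RW4.Key

/-!
Assembly, with a rate.
-/

open AlgebraicGeometry CategoryTheory NumberField MvPolynomial Pool.Agent.Helper6.RW3

namespace Pool.Agent.Helper6.RW4

open Pool.Agent.Helper6.RH (Idx ev)

theorem main (A : Type) [CommRing A] [IsDomain A] [Algebra.FiniteType ℤ A] (N a l m : ℕ)
    (hm : 1 ≤ m) (E : Finset (Fin m)) (I : Set (MvPolynomial (Vars N a) A))
    (hI : ∀ f ∈ I, ∃ k, IsFormX f k) (G : Fin l → MvPolynomial (Vars N a) A) (g : Fin l → ℕ)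
    (hg : ∀ i, 1 ≤ g i) (hG : ∀ i, IsFormX (G i) (g i))
    (hdim : LevelDimLE I G (if l = 0 ∧ E = Finset.univ then m + 1 else m)) :
    ∃ D₀ : ℕ, ∀ (B : Scheme.{0}) [IsIntegral B] (s : B ⟶ Spec (.of ℤ)) [LocallyOfFiniteType s]
      [Flat s] (j : A →+* B.functionField), Function.Injective j →
      ∀ G' : Fin l → MvPolynomial (Vars N a) Γ(B, ⊤),
      (∀ i, MvPolynomial.map (toField B) (G' i) = MvPolynomial.map j (G i)) →
      ∀ d : Fin m → ℕ, (∀ i, D₀ ≤ d i) ∨
        (E.card < N ∧ N < m ∧ (∀ i, 1 ≤ d i) ∧ N + 2 ≤ ∑ i, d i) →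
      ∃ δ : ℝ, 0 < δ ∧ ∃ H₀ : ℕ, ∀ H : ℕ, H₀ ≤ H →
        ∀ Φ : Fin m → MvPolynomial (Vars N a) Γ(B, ⊤), (∀ i, IsFormX (Φ i) (d i)) →
        (({F ∈ FormBox N d H | HasIntegralPoint B (MvPolynomial.map j '' I) G' E
          (fun i => Φ i + formOver a Γ(B, ⊤) (F i))}.ncard : ℕ) : ℝ) ≤
          Real.exp (-(Real.log H) ^ δ) * (FormBox N d H).ncard := by
  classical
  have hnoeth : IsNoetherianRing A := Algebra.FiniteType.isNoetherianRing ℤ _
  obtain ⟨D₀, g₀, r₀, θ, hg₀, hD₀, hθ, hcount⟩ := count_all A N a l m hm E I hI G g hg hG hdim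
  refine ⟨D₀, ?_⟩
  intro B _ s _ _ j hj G' hG' d hd
  obtain ⟨V, hne, hV, hchar, hft, j', hjj⟩ := exists_affine_over s A j
  have hfrac : IsFractionRing Γ(B, V) B.functionField :=
    functionField_isFractionRing_of_isAffineOpen B V hV
  have hinj : Function.Injective (algebraMap Γ(B, V) B.functionField) :=
    IsFractionRing.injective _ _
  have hdomR : IsDomain Γ(B, V) := hinj.isDomain
  have hj' : Function.Injective j' := by
    have h1 : Function.Injective ((algebraMap Γ(B, V) B.functionField).comp j') := hjj ▸ hj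
    exact fun x y h => h1 (by rw [RingHom.comp_apply, RingHom.comp_apply, h])
  set LA := Lifts A (MvPolynomial.map (algebraMap A (FractionRing A)) '' I) with hLA
  have hIK : ∀ f ∈ MvPolynomial.map j '' I, ∃ k, IsFormX f k := by
    rintro _ ⟨f, hf, rfl⟩
    obtain ⟨k, hk⟩ := hI f hf
    refine ⟨k, fun s hs => hk fun h0 => hs ?_⟩
    rw [coeff_map, h0, map_zero]
  have hGV : ∀ i, MvPolynomial.map (res B V) (G' i) = MvPolynomial.map j' (G i) := by
    intro i
    apply MvPolynomial.map_injective _ hinj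
    rw [MvPolynomial.map_map, MvPolynomial.map_map, algebraMap_res, hjj, hG']
  have hinjT : Function.Injective (toField B) := by
    have hne' : Nonempty (⊤ : B.Opens) := ⟨⟨genericPoint B, trivial⟩⟩
    exact B.germToFunctionField_injective ⊤
  have hG'h : ∀ i, IsFormX (G' i) (g i) := fun i => by
    intro s hs
    refine hG i fun h0 => hs (hinjT ?_)
    have h1 := congrArg (coeff s) (hG' i)
    rw [coeff_map, coeff_map, h0, map_zero] at h1
    rw [h1, map_zero]
  -- the general part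
  have key : ∀ (g₁ : A) (r₁ : ℕ) (θ₁ : ℝ), g₁ ≠ 0 → 0 < θ₁ → (0 < ∏ i, d i) →
      (∀ (Φ : Fin m → MvPolynomial (Vars N a) Γ(B, ⊤))
        (F : Fin m → MvPolynomial (Fin (N + 1)) ℤ), (∀ i, IsFormX (Φ i) (d i)) →
        (∀ i, (F i).IsHomogeneous (d i)) → HasIntegralPoint B (MvPolynomial.map j '' I) G' E
        (fun i => Φ i + formOver a Γ(B, ⊤) (F i)) →
        ∀ (S : Type) [CommRing S] [IsDomain S] [IsPrincipalIdealRing S] (φ : Γ(B, V) →+* S),
        SetS φ (Lifts Γ(B, V) (MvPolynomial.map j '' I))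
          (fun i => MvPolynomial.map (res B V) (G' i)) E
        (fun i => MvPolynomial.map (res B V) (Φ i)) F) →
      CountMod LA G E g₁ r₁ θ₁ d (∏ i, d i) →
      ∃ δ : ℝ, 0 < δ ∧ ∃ H₀ : ℕ, ∀ H : ℕ, H₀ ≤ H →
        ∀ Φ : Fin m → MvPolynomial (Vars N a) Γ(B, ⊤), (∀ i, IsFormX (Φ i) (d i)) →
        (({F ∈ FormBox N d H | HasIntegralPoint B (MvPolynomial.map j '' I) G' E
          (fun i => Φ i + formOver a Γ(B, ⊤) (F i))}.ncard : ℕ) : ℝ) ≤
          Real.exp (-(Real.log H) ^ δ) * (FormBox N d H).ncard := by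
    intro g₁ r₁ θ₁ hg₁ hθ₁ hpos hspec hc
    obtain ⟨K, _, _, N₀, hN, hpid, φ, hφ, hroot⟩ := exists_hom_pid_root Γ(B, V) (j' g₁)
      ((map_ne_zero_iff j' hj').mpr hg₁) (∏ i, d i) hpos
    have hdom := Pool.Agent.Helper6.RH.isDomain_away K N₀ hN
    have hS := Pool.Agent.Helper51.LVC.units_fg (K := K) N₀ hN
    obtain ⟨P, hP, hP0, hprimes⟩ := scales_of K N₀ hN (max r₁ (∏ i, d i))
    refine key_L B V (MvPolynomial.map j '' I) G' E d (Localization.Away (N₀ : 𝓞 K)) hS P hP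
      hprimes φ (MvPolynomial.map j' '' LA) (fun i => MvPolynomial.map j' (G i)) hθ₁
      (fun Φ F hΦ hF h => ?_) (fun r hr _ ψ τ v u b => ?_)
    · obtain ⟨x, τ, h1, h2, h3, h4, h5⟩ := hspec Φ F hΦ hF h (Localization.Away (N₀ : 𝓞 K)) φ
      refine ⟨x, τ, h1, ?_, fun i => ?_, h4, h5⟩
      · rintro _ ⟨f, hf, rfl⟩
        exact h2 _ (map_lift j hj j' hjj I f hf)
      · show IsUnit (eval₂ φ _ (MvPolynomial.map j' (G i)))
        rw [← hGV]
        exact h3 i
    · have hr1 := hP0 r hr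
      obtain ⟨SS, h3, h4⟩ := hc r ((le_max_left _ _).trans hr1.le) ((ψ.comp φ).comp j')
        (hφ.map ψ).ne_zero (hroot r ψ ((le_max_right _ _).trans_lt hr1)) τ v u b
      refine ⟨SS, ?_, h4⟩
      rintro c ⟨x, hx, hx1, hx2, hx3⟩
      refine h3 c ⟨x, hx, fun f hf => ?_, fun i => ?_, hx3⟩
      · have h6 := hx1 _ ⟨f, hf, rfl⟩
        rwa [eval₂_map] at h6
      · have h6 := hx2 i
        rwa [eval₂_map] at h6
  have hd1 : ∀ i, 1 ≤ d i := by
    rcases hd with hd | ⟨-, -, hd1, -⟩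
    · exact fun i => hD₀.trans (hd i)
    · exact hd1
  have hprod : 0 < ∏ i, d i := Finset.prod_pos fun i _ => hd1 i
  by_cases hproj : l = 0 ∧ E = Finset.univ
  · -- complete intersections
    rcases hd with hd | ⟨hE0, hE1, -⟩
    · exact key g₀ r₀ θ hg₀ hθ hprod (fun Φ F hΦ hF h S _ _ _ φ =>
        to_SetS_proj B V hV hproj.1 _ hIK G' E hproj.2 Φ F d hΦ hF h S φ) (hcount d hd)
    · exfalso
      rw [hproj.2, Finset.card_univ, Fintype.card_fin] at hE0
      omega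
  · have hpos : 1 ≤ ∑ i, g i + ∑ i ∈ Eᶜ, d i := by
      rcases Nat.eq_zero_or_pos l with hl | hl
      · obtain ⟨i, hi⟩ : ∃ i, i ∉ E := by
          by_contra hcon
          push Not at hcon
          exact hproj ⟨hl, Finset.eq_univ_iff_forall.mpr hcon⟩
        have h3 : d i ≤ ∑ i ∈ Eᶜ, d i :=
          Finset.single_le_sum (fun _ _ => Nat.zero_le _) (Finset.mem_compl.mpr hi)
        have h4 := hd1 i
        omega
      · have h3 : g ⟨0, hl⟩ ≤ ∑ i, g i :=
          Finset.single_le_sum (fun _ _ => Nat.zero_le _) (Finset.mem_univ _)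
        have h4 := hg ⟨0, hl⟩
        omega
    have hspec := fun (Φ : Fin m → MvPolynomial (Vars N a) Γ(B, ⊤))
        (F : Fin m → MvPolynomial (Fin (N + 1)) ℤ) (hΦ : ∀ i, IsFormX (Φ i) (d i))
        (hF : ∀ i, (F i).IsHomogeneous (d i)) h (S : Type) [CommRing S] [IsDomain S]
        [IsPrincipalIdealRing S] (φ : Γ(B, V) →+* S) =>
        to_SetS B V hV (MvPolynomial.map j '' I) hIK G' g hG'h E Φ F d hΦ hF hpos h S φ
    rcases hd with hd | ⟨hE0, hNm, hd1, hsum⟩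
    · exact key g₀ r₀ θ hg₀ hθ hprod hspec (hcount d hd)
    · refine key 1 5 (1 / (2 * ((8 + 8 * ∑ i, d i : ℕ) : ℝ))) one_ne_zero
        (by positivity) hprod hspec fun r hr _ ψ _ _ τ v u b => ?_
      obtain ⟨SS, h3, h4⟩ := count_exact hNm d hd1 hsum r hr E hE0
        (fun i => if i ∈ E then 0 else (u i : ZMod r)) (fun i hi => by
          rw [if_neg hi]
          exact Units.ne_zero _) b
      refine ⟨SS, ?_, h4⟩
      rintro c ⟨x, hx, -, -, hx3⟩
      exact h3 c ⟨x, hx, hx3⟩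

end Pool.Agent.Helper6.RW4
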