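import Pool.Agent.Helper83.LVB2

/-!
Splitting primes at many scales.
-/

open Finset Filter Pool.Agent.Helper83.LVB

namespace Pool.Agent.Helper6.RW4

open Classical in
/-- dyadic step with the trivial bound -/
theorem step_trivial (K : Type*) [Field K] [NumberField K] (j : ℕ) :
    ∑ r ∈ PK K (2 ^ (j + 1)), Real.log r / r ≤
      ∑ r ∈ PK K (2 ^ j), Real.log r / r + 2 * Real.log 4 := by
  have hsub : PK K (2 ^ j) ⊆ PK K (2 ^ (j+1)) := by
    intro r hr
    rw [PK, Finset.mem_filter, Finset.mem_range] at hr ⊢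
    have : 2 ^ j ≤ 2 ^ (j+1) := Nat.pow_le_pow_right (by norm_num) (Nat.le_succ j)
    exact ⟨by omega, hr.2⟩
  rw [← Finset.sum_sdiff hsub, add_comm]
  refine add_le_add le_rfl ?_
  have h5 : (0:ℝ) < (2 ^ j : ℕ) := by positivity
  have h2 : ∀ r ∈ PK K (2 ^ (j+1)) \ PK K (2 ^ j), Real.log r / r ≤
      Real.log r / (2 ^ j : ℕ) := by
    intro r hr
    rw [Finset.mem_sdiff, PK, PK, Finset.mem_filter, Finset.mem_filter, Finset.mem_range,
      Finset.mem_range] at hr
    have h3 : 2 ^ j < r := by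
      by_contra h
      exact hr.2 ⟨by omega, hr.1.2⟩
    have h6 : ((2 ^ j : ℕ) : ℝ) ≤ r := by exact_mod_cast h3.le
    exact div_le_div_of_nonneg_left (Real.log_natCast_nonneg _) h5 h6
  refine (Finset.sum_le_sum h2).trans ?_
  rw [← Finset.sum_div, div_le_iff₀ h5]
  have h7 : ∑ r ∈ PK K (2 ^ (j+1)) \ PK K (2 ^ j), Real.log r ≤
      Real.log (primorial (2 ^ (j + 1))) := by
    rw [primorial]
    push_cast
    rw [Real.log_prod (fun r hr => by
      have := (Finset.mem_filter.mp hr).2.pos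
      positivity)]
    refine Finset.sum_le_sum_of_subset_of_nonneg ?_ fun r _ _ => Real.log_natCast_nonneg _
    intro r hr
    rw [Finset.mem_sdiff, PK, Finset.mem_filter] at hr
    rw [Finset.mem_filter]
    exact ⟨hr.1.1, hr.1.2.1⟩
  refine h7.trans ?_
  have h8 : Real.log (primorial (2 ^ (j + 1))) ≤ Real.log ((4 : ℝ) ^ (2 ^ (j + 1))) := by
    apply Real.log_le_log
    · exact_mod_cast primorial_pos _
    · exact_mod_cast primorial_le_four_pow (2 ^ (j + 1))
  refine h8.trans ?_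
  rw [Real.log_pow]
  push_cast
  rw [pow_succ]
  linarith [show (2 : ℝ) ^ j * 2 * Real.log 4 = 2 * Real.log 4 * 2 ^ j by ring]

theorem sum_trivial (K : Type*) [Field K] [NumberField K] (j : ℕ) :
    ∑ r ∈ PK K (2 ^ j), Real.log r / r ≤
      ∑ r ∈ PK K (2 ^ 0), Real.log r / r + j * (2 * Real.log 4) := by
  induction j with
  | zero => simp
  | succ j ih =>
    have := step_trivial K j
    push_cast
    linarith

open Classical in
/-- dyadic step with few primes -/
theorem step_few (K : Type*) [Field K] [NumberField K] (c : ℝ) (j : ℕ)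
    (h9 : ((PK K (2 ^ (j + 1))).card : ℝ) ≤ c * (2 ^ (j + 1) : ℕ) / Real.log (2 ^ (j + 1) : ℕ)) :
    ∑ r ∈ PK K (2 ^ (j + 1)), Real.log r / r ≤
      ∑ r ∈ PK K (2 ^ j), Real.log r / r + 2 * c := by
  have hsub : PK K (2 ^ j) ⊆ PK K (2 ^ (j+1)) := by
    intro r hr
    rw [PK, Finset.mem_filter, Finset.mem_range] at hr ⊢
    have : 2 ^ j ≤ 2 ^ (j+1) := Nat.pow_le_pow_right (by norm_num) (Nat.le_succ j)
    exact ⟨by omega, hr.2⟩
  rw [← Finset.sum_sdiff hsub, add_comm]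
  refine add_le_add le_rfl ?_
  have h2 : ∀ r ∈ PK K (2 ^ (j+1)) \ PK K (2 ^ j), Real.log r / r ≤
      Real.log (2 ^ (j+1) : ℕ) / (2 ^ j : ℕ) := by
    intro r hr
    rw [Finset.mem_sdiff, PK, PK, Finset.mem_filter, Finset.mem_filter, Finset.mem_range,
      Finset.mem_range] at hr
    have h3 : 2 ^ j < r := by
      by_contra h
      exact hr.2 ⟨by omega, hr.1.2⟩
    have h4 : r ≤ 2 ^ (j+1) := by omega
    have h5 : (0:ℝ) < (2 ^ j : ℕ) := by positivity
    have h6 : ((2 ^ j : ℕ) : ℝ) ≤ r := by exact_mod_cast h3.le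
    have h7 : (0:ℝ) < r := h5.trans_le h6
    refine div_le_div₀ (Real.log_natCast_nonneg _) ?_ h5 h6
    exact Real.log_le_log h7 (by exact_mod_cast h4)
  refine (Finset.sum_le_card_nsmul _ _ _ h2).trans ?_
  rw [nsmul_eq_mul]
  have h8 : ((PK K (2 ^ (j+1)) \ PK K (2 ^ j)).card : ℝ) ≤ (PK K (2 ^ (j+1))).card := by
    exact_mod_cast Finset.card_le_card Finset.sdiff_subset
  have h10 : 0 < Real.log (2 ^ (j+1) : ℕ) := by
    apply Real.log_pos
    have : 1 < 2 ^ (j+1) := Nat.one_lt_two_pow (by omega)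
    exact_mod_cast this
  have h11 : (0:ℝ) ≤ Real.log (2 ^ (j+1) : ℕ) / (2 ^ j : ℕ) := by positivity
  refine (mul_le_mul_of_nonneg_right (h8.trans h9) h11).trans_eq ?_
  have h12 : ((2 ^ j : ℕ) : ℝ) ≠ 0 := by positivity
  have h13 : Real.log (2 ^ (j+1) : ℕ) ≠ 0 := h10.ne'
  have h14 : ((2 ^ (j+1) : ℕ) : ℝ) = 2 * (2 ^ j : ℕ) := by push_cast; ring
  generalize Real.log (2 ^ (j+1) : ℕ) = L at *
  rw [h14]
  field_simp

/-- **Many scales with many splitting primes.** -/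
theorem exists_scale (K : Type*) [Field K] [NumberField K] : ∃ c ε : ℝ, 0 < c ∧ 0 < ε ∧
    ∃ Y₀ : ℕ, ∀ Y : ℕ, Y₀ ≤ Y → ∃ y : ℕ, y ≤ Y ∧ (Y : ℝ) ^ ε ≤ y ∧
      c * y / Real.log y ≤ ((PK K y).card : ℝ) := by
  obtain ⟨c₀, C, hc₀, hM⟩ := exists_mertens_PK K
  have hlog2 : 0 < Real.log 2 := Real.log_pos (by norm_num)
  have hlog4 : 0 < Real.log 4 := Real.log_pos (by norm_num)
  set a : ℝ := c₀ * Real.log 2 with ha
  have ha0 : 0 < a := by positivity
  set A := ∑ r ∈ PK K (2 ^ 0), Real.log r / r with hA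
  set η : ℝ := min (a / (8 * Real.log 4)) 1 with hη
  have hη0 : 0 < η := lt_min (by positivity) one_pos
  have hη1 : η ≤ 1 := min_le_right _ _
  have hηa : η * (2 * Real.log 4) ≤ a / 4 := by
    have h1 : η ≤ a / (8 * Real.log 4) := min_le_left _ _
    calc η * (2 * Real.log 4) ≤ a / (8 * Real.log 4) * (2 * Real.log 4) :=
          mul_le_mul_of_nonneg_right h1 (by positivity)
      _ = a / 4 := by field_simp; ring
  obtain ⟨J₀, hJ₀⟩ := exists_nat_gt ((A + C + 2) / (a / 4))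
  refine ⟨a / 8, η / 2, by positivity, by positivity, 2 ^ (J₀ + 1), fun Y hY => ?_⟩
  have hY0 : Y ≠ 0 := by
    rintro rfl
    have := Nat.one_le_two_pow (n := J₀ + 1)
    omega
  set J := Nat.log 2 Y with hJ
  have hJJ : J₀ + 1 ≤ J := (Nat.le_log_iff_pow_le (by norm_num) hY0).mpr hY
  have hYl : 2 ^ J ≤ Y := Nat.pow_log_le_self 2 hY0
  have hYu : Y < 2 ^ (J + 1) := Nat.lt_pow_succ_log_self (by norm_num) Y
  set i₀ := ⌊η * J⌋₊ with hi₀
  have hi₀le : (i₀ : ℝ) ≤ η * J := Nat.floor_le (by positivity)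
  have hi₀lt : η * J < i₀ + 1 := Nat.lt_floor_add_one _
  have hi₀J : i₀ ≤ J := by
    have h1 : (i₀ : ℝ) ≤ J := by
      have h2 : η * (J : ℝ) ≤ 1 * J := mul_le_mul_of_nonneg_right hη1 (Nat.cast_nonneg _)
      linarith
    exact_mod_cast h1
  by_contra hcon
  push Not at hcon
  -- few primes at all scales
  have hfew : ∀ i, i₀ ≤ i → i + 1 ≤ J → ((PK K (2 ^ (i + 1))).card : ℝ) ≤
      a / 8 * (2 ^ (i + 1) : ℕ) / Real.log (2 ^ (i + 1) : ℕ) := by
    intro i hi hiJ
    refine (hcon (2 ^ (i + 1)) ((Nat.pow_le_pow_right (by norm_num) hiJ).trans hYl) ?_).le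
    have h1 : (Y : ℝ) ≤ 2 ^ (2 * J : ℝ) := by
      have h2 : (Y : ℝ) ≤ 2 ^ (J + 1) := by exact_mod_cast hYu.le
      refine h2.trans ?_
      rw [← Real.rpow_natCast]
      apply Real.rpow_le_rpow_of_exponent_le (by norm_num)
      push_cast
      have : (1 : ℝ) ≤ J := by exact_mod_cast (by omega : 1 ≤ J)
      linarith
    calc (Y : ℝ) ^ (η / 2) ≤ ((2 : ℝ) ^ (2 * J : ℝ)) ^ (η / 2) :=
          Real.rpow_le_rpow (Nat.cast_nonneg _) h1 (by positivity)
      _ = (2 : ℝ) ^ (η * J) := by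
          rw [← Real.rpow_mul (by norm_num)]
          congr 1
          ring
      _ ≤ (2 : ℝ) ^ ((i + 1 : ℕ) : ℝ) := by
          apply Real.rpow_le_rpow_of_exponent_le (by norm_num)
          have h3 : (i₀ : ℝ) ≤ i := by exact_mod_cast hi
          push_cast
          linarith
      _ = ((2 ^ (i + 1) : ℕ) : ℝ) := by
          rw [Real.rpow_natCast]
          push_cast
          rfl
  have hind : ∀ k : ℕ, i₀ + k ≤ J → ∑ r ∈ PK K (2 ^ (i₀ + k)), Real.log r / r ≤
      ∑ r ∈ PK K (2 ^ i₀), Real.log r / r + k * (2 * (a / 8)) := by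
    intro k
    induction k with
    | zero => intro _; simp
    | succ k ih =>
      intro hk
      have h1 := ih (by omega)
      have h2 := step_few K (a / 8) (i₀ + k) (hfew (i₀ + k) (by omega) (by omega))
      rw [← Nat.add_assoc]
      push_cast at h2 ⊢
      linarith
  have h1 := hind (J - i₀) (by omega)
  rw [show i₀ + (J - i₀) = J by omega] at h1
  have h2 := sum_trivial K i₀
  rw [← hA] at h2
  have h3 := hM (2 ^ J)
  have h4 : Real.log ((2 ^ J : ℕ) : ℝ) = J * Real.log 2 := by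
    push_cast
    rw [Real.log_pow]
  rw [h4] at h3
  have h5 : ((J - i₀ : ℕ) : ℝ) ≤ J := by exact_mod_cast Nat.sub_le _ _
  have h6 : ((J - i₀ : ℕ) : ℝ) * (2 * (a / 8)) ≤ J * (a / 4) := by
    have : 2 * (a / 8) = a / 4 := by ring
    rw [this]
    exact mul_le_mul_of_nonneg_right h5 (by positivity)
  have h7 : (i₀ : ℝ) * (2 * Real.log 4) ≤ J * (a / 4) := by
    calc (i₀ : ℝ) * (2 * Real.log 4) ≤ (η * J) * (2 * Real.log 4) :=
          mul_le_mul_of_nonneg_right hi₀le (by positivity)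
      _ = J * (η * (2 * Real.log 4)) := by ring
      _ ≤ J * (a / 4) := mul_le_mul_of_nonneg_left hηa (Nat.cast_nonneg _)
  have h8 : c₀ * (J * Real.log 2) = J * a := by rw [ha]; ring
  rw [h8] at h3
  have h9 : (J : ℝ) * (a / 2) ≤ A + C := by linarith
  have h10 : (J₀ : ℝ) < J := by exact_mod_cast (by omega : J₀ < J)
  rw [div_lt_iff₀ (by positivity)] at hJ₀
  have h11 : (J₀ : ℝ) * (a / 4) ≤ J * (a / 4) :=
    mul_le_mul_of_nonneg_right h10.le (by positivity)
  have h12 : 0 ≤ (J : ℝ) * (a / 4) := by positivity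
  have h13 : (J : ℝ) * (a / 2) = J * (a / 4) + J * (a / 4) := by ring
  linarith

end Pool.Agent.Helper6.RW4
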